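import Pool.Agent.Q18.LF.Pow

/-!
# The alternating sums of Knörr and Robinson and normal subgroups of `p`-power index, block by block
-/

open scoped Classical

noncomputable section

namespace Pool.Agent.Results.MP_6a3f1a_al.BlockIndexFormula

open Pool.Agent.Y63.NV
open Pool.Agent.Y63.KR (alternatingSum)
open Pool.Agent.Y63.AWC (IsIrreducibleCharacter pSubgroupSetoid)

/-- The error term of the block `B` of `J`: `e(B) = ∑_σ (-1)^|σ| k(B_σ) - z(B)`, the sum over the
classes of chains `σ` of nontrivial `p`-subgroups of `J` (the empty chain included), where `z(B)` is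
`1` if `B` has defect zero and `0` otherwise. -/
def err (p : ℕ) {F : Type} [Field F] (red : integralClosure ℤ ℂ →+* F) {J : Type} [Group J]
    (B : (J → F) → F) : ℤ :=
  alternatingSum p J (fun H => (numIrrInd red H B : ℤ)) - numDzBlock p red B

section

variable {Γ F : Type} [Group Γ] [Field F]

/-- The number of irreducible characters `χ` of the subgroup `H` of `C` such that the (reduced)
central character of `χ` takes at `z` (restricted to `H`) the value `b(z)` for all `z` in the centre
of `F[Γ]` supported on `G`: for the stabilisers `H` of chains of `C ≤ G`, a block of `G` conjugate to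
`b` is induced by the block of `χ`. -/
def numIrrOver (red : integralClosure ℤ ℂ →+* F) (G C : Subgroup Γ) (b : (G → F) → F)
    (H : Subgroup C) : ℕ :=
  Nat.card {χ : H → ℂ // IsIrreducibleCharacter χ ∧
    ∀ z : Γ → F, InZ G z → centralValue red χ (fun x => z x) = b (fun x : G => z x)}

/-- the same for the characters of `C` of defect zero -/
def numDzOver (p : ℕ) (red : integralClosure ℤ ℂ →+* F) (G C : Subgroup Γ) (b : (G → F) → F) :
    ℕ :=
  Nat.card {χ : C → ℂ // IsWt p (⊥ : Subgroup C) χ ∧
    ∀ z : Γ → F, InZ G z → centralValue red χ (fun x => z x) = b (fun x : G => z x)}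

/-- the error term `e(C | b)` of `C` over the block `b` of `G` -/
def errOver (p : ℕ) (red : integralClosure ℤ ℂ →+* F) (G C : Subgroup Γ) (b : (G → F) → F) : ℤ :=
  alternatingSum p C (fun H => (numIrrOver red G C b H : ℤ)) - numDzOver p red G C b

/-- `U` is an elementary abelian `p`-group. -/
def IsElementary (p : ℕ) (U : Subgroup Γ) : Prop :=
  (∀ x ∈ U, x ^ p = 1) ∧ ∀ x ∈ U, ∀ y ∈ U, x * y = y * x

end

/-- Let `G` be a normal subgroup of the finite group `Γ`.

1. If `|Γ : G| = p`, then for every block `B` of `Γ` and every block `b` of `G` covered by `B`, with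
stabiliser `S` in `Γ`,
`p e(B) = |Γ : S| e(b) - ∑_U e(C_G(U) | b)`, the sum over the `Γ`-classes of complements `U` of `G`
in `Γ` (the subgroups of order `p` outside `G`).

2. If `Γ/G` is a `p`-group and the blockwise equality `e = 0` holds for all blocks of the groups
`C_G(U)`, `U ≠ 1` an elementary abelian `p`-subgroup of `Γ` with `G ∩ U = 1`, then it holds for all
blocks of `Γ` if and only if it holds for all blocks of `G`. -/
theorem result (p : ℕ) [Fact p.Prime] (F : Type) [Field F] [IsAlgClosed F] [CharP F p]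
    (red : integralClosure ℤ ℂ →+* F) (Γ : Type) [Group Γ] [Finite Γ] (G : Subgroup Γ)
    [G.Normal] :
    (Nat.card (Γ ⧸ G) = p →
      ∀ (b : (G → F) → F) (B : (Γ → F) → F), IsBlock b → IsBlock B →
        (∀ z : Γ → F, InZ G z → B z = b (fun x : G => z x)) → ∀ S : Subgroup Γ,
        (∀ γ : Γ, γ ∈ S ↔ ∀ f : G → F, IsClassFun f →
          b (fun x => f (MulAut.conjNormal γ x)) = b f) →
        (p : ℤ) * err p red B = S.index * err p red b -
          ∑ᶠ c : Quotient (pSubgroupSetoid p Γ), if G ⊔ c.out.1 = ⊤ ∧ G ⊓ c.out.1 = ⊥ then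
            errOver p red G (G ⊓ Subgroup.centralizer (c.out.1 : Set Γ)) b else 0) ∧
    (IsPGroup p (Γ ⧸ G) →
      (∀ U : Subgroup Γ, IsElementary p U → U ≠ ⊥ → G ⊓ U = ⊥ →
        ∀ β : (↥(G ⊓ Subgroup.centralizer (U : Set Γ)) → F) → F, IsBlock β → err p red β = 0) →
      ((∀ B : (Γ → F) → F, IsBlock B → err p red B = 0) ↔
        ∀ b : (G → F) → F, IsBlock b → err p red b = 0)) := by
  refine ⟨fun hc b B hb hB hbB S hS => Pool.Agent.Q18.LF.e_cent red hc hb hB hbB S hS,
    fun hp hU => ?_⟩
  obtain ⟨n, hn⟩ := IsPGroup.iff_card.1 hp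
  have h1 := Pool.Agent.Q18.LF.krb_pow red n Γ G n le_rfl hn fun U hU1 hU2 hU3 =>
    (Pool.Agent.Q18.LF.krb_iff_eB p red).2 (hU U hU1 hU2 hU3)
  rw [Pool.Agent.Q18.LF.krb_iff_eB, Pool.Agent.Q18.LF.krb_iff_eB] at h1
  exact h1

end Pool.Agent.Results.MP_6a3f1a_al.BlockIndexFormula
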