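import Pool.Agent.Q17.DC.All3

/-!
# Alternating sums of the numbers of Brauer characters, relative to a normal subgroup

`N` is a normal subgroup of an arbitrary finite group `G` and `y` is a `p`-element of order `p`
modulo `N` which is central modulo `N`. The hypothesis is on the centralisers in `N` of the
`p`-elements of the coset `yN` only. If the centre of a defect group of the block `B` of `G` meets
`N⟨y⟩` outside `N` then there is exactly one block `b` of `H` with `b^G = B`, and the alternating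
sums over the chains of `p`-subgroups of the numbers of the irreducible Brauer characters of the
stabilisers in blocks which induce `B` and `b` agree.

From `Pool.Agent.Q17.DC.Defs`: `Ch p ⊤ Z₀ σ` says that `σ` is the set of the members
`D₁ < ... < D_n` of a chain `Z₀ < D₁ < ... < D_n` of `p`-subgroups, `Ns ⊤ σ` is the stabiliser of
`σ`, `altX p ⊤ Z₀ w` is the sum of the `(-1) ^ n * w σ` over representatives `σ` of the conjugacy
classes of these chains. From `Pool.Agent.Q17.DC.Stm4`: `lB p B` is the dimension of the space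
spanned by the restrictions to the `p`-regular elements of the characters in `B` (the number of the
irreducible Brauer characters in `B`).
-/

open scoped Classical
open Pool.Agent.H254R3.IN Pool.Agent.Q17.DC

namespace Pool.Agent.Results.MP_6a3f1a_al.BrauerCharacterSums

/-- The hypotheses on `(G, N, y, P, H)`: `y ∈ P` has order `p` modulo `N` and is central modulo `N`;
`H` contains the Sylow `p`-subgroup `P` and `C_N(x)` for all `x ∈ P ∩ yN`, and `G = NH`. -/
def Hyp {G : Type} [Group G] (p : ℕ) (N : Subgroup G) (y : G) (P : Sylow p G) (H : Subgroup G) :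
    Prop :=
  (y ∈ P ∧ y ∉ N ∧ y ^ p ∈ N ∧ ∀ g : G, g * y * g⁻¹ * y⁻¹ ∈ N) ∧
    (P : Subgroup G) ≤ H ∧ (∀ g : G, ∃ n ∈ N, ∃ h ∈ H, g = n * h) ∧
    ∀ x ∈ P, y⁻¹ * x ∈ N → ∀ n ∈ N, Commute n x → n ∈ H

/-- The block `b` of the subgroup `L` induces the block `B` of `G`:
`λ_B(K⁺) = λ_b((K ∩ L)⁺)` for the class `K` of every `x`. -/
def Induces {G : Type} [Group G] (O : ValuationSubring ℂ) (B : Set (G → ℂ)) {L : Subgroup G}
    (b : Set (L → ℂ)) : Prop :=
  ∀ χ ∈ B, ∀ θ ∈ b, ∀ x : G,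
    omega χ x - ∑ᶠ y : {y : L // IsConj x (y : G)}, θ y / θ 1 ∈ O.nonunits

/-- `l(B_L)`: the number of the irreducible Brauer characters of the subgroup `L` in the blocks of
`L` which induce `B`. -/
noncomputable def lBelow {G : Type} [Group G] (p : ℕ) (O : ValuationSubring ℂ)
    (B : Set (G → ℂ)) (L : Subgroup G) : ℕ :=
  ∑ᶠ β : {β : Set (L → ℂ) // IsBlock O β ∧ Induces O B β}, lB p β.1

/-- The alternating sum `∑ (-1)^|σ| l(B_σ)` over representatives of the conjugacy classes of the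
chains of `p`-subgroups which start with `Z₀`. -/
noncomputable def lSum {G : Type} [Group G] (p : ℕ) (O : ValuationSubring ℂ) (Z₀ : Subgroup G)
    (B : Set (G → ℂ)) : ℤ :=
  altX p ⊤ Z₀ fun σ => (lBelow p O B (Ns ⊤ σ) : ℤ)

/-- **Theorem.** Let `G` be a finite group, `N` a normal subgroup, `P` a Sylow `p`-subgroup of `G`
and `y ∈ P ∖ N` with `y ^ p ∈ N` and `[G, y] ≤ N` (so `G / N` is arbitrary, with a central subgroup
of order `p`). Let `H ≥ P` be a subgroup with `G = NH` and `C_N(x) ≤ H` for all `x ∈ P ∩ yN`. Let `B`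
be a `p`-block of `G` with a defect group `D ≤ H` (every block has one) whose centre contains an
element of `N⟨y⟩ ∖ N`. Then there is a block `b` of `H` with `b^G = B` and defect group `D`, it is the
only block of `H` with `b^G = B`, and
(1) for every normal `p`-subgroup `Z₀` of `G` (for instance `O_p(G)`) the sums `∑ (-1)^|σ| l(B_σ)`
for the chains of `G` and `∑ (-1)^|τ| l(b_τ)` for the chains of `H` are equal, and zero if `H` has a
normal `p`-subgroup which is not contained in `Z₀`;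
(2) for every chain `τ` of `p`-subgroups of `H` whose stabiliser in `H` contains a `p`-element of
`N⟨y⟩ ∖ N`, `l(B_τ) = l(b_τ)`; for the empty chain this is `l(B) = l(b)`. -/
theorem result (G : Type) [Group G] [Fintype G] (p : ℕ) [hp : Fact p.Prime] (N H : Subgroup G)
    [N.Normal] (P : Sylow p G) (y : G) (hyp : Hyp p N y P H) (O : ValuationSubring ℂ)
    (hO : (p : ℂ) ∈ O.nonunits) (B : Set (G → ℂ)) (hB : IsBlock O B) (D : Subgroup G)
    (hDH : D ≤ H) (hD : IsDefectGroup p O B D)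
    (hz : ∃ z ∈ D, (∀ x ∈ D, Commute z x) ∧ z ∈ N ⊔ Subgroup.zpowers y ∧ z ∉ N) :
    ∃ b : Set (H → ℂ), IsBlock O b ∧ Induces O B b ∧ IsDefectGroup p O b (D.subgroupOf H) ∧
      (∀ b' : Set (H → ℂ), IsBlock O b' → Induces O B b' → b' = b) ∧
      (∀ Z₀ : Subgroup G, Z₀.Normal → IsPGroup p Z₀ →
        lSum p O Z₀ B = lSum p O (Z₀.subgroupOf H) b ∧
        ((∃ E : Subgroup H, E.Normal ∧ IsPGroup p E ∧ ¬ E ≤ Z₀.subgroupOf H) →
          lSum p O Z₀ B = 0)) ∧
      ∀ τ : Set (Subgroup H), Ch p ⊤ ⊥ τ →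
        (∃ z ∈ Ns ⊤ τ, (∃ k, orderOf z = p ^ k) ∧ (z : G) ∈ N ⊔ Subgroup.zpowers y ∧
          (z : G) ∉ N) →
        lBelow p O B (Ns ⊤ (Subgroup.map H.subtype '' τ)) = lBelow p O b (Ns ⊤ τ) := by
  have td : Pool.Agent.Q17.TC.TD p N y H P := ⟨inferInstance, hyp.1.2.1, hyp.1.2.2.1,
    hyp.1.2.2.2, hyp.1.1, hyp.2.1, hyp.2.2.1, hyp.2.2.2⟩
  have hN : N.Normal := inferInstance
  obtain ⟨z, hz, hzc, hzK, hzN⟩ := hz
  obtain ⟨⟨b, hb, hbi⟩, hbD⟩ := (prt2.unq G p O hO N y H P td B hB).1 D hDH hD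
    ⟨z, hz, hzK, hzN⟩
  have hg : Gd p O N (Pool.Agent.Q17.TC.KK N y) B :=
    @good_of_defect G _ _ (stdQ p O N (Pool.Agent.Q17.TC.KK N y)) hp prt.mmz hO B hB D hD z hz
      hzc hzK hzN
  refine ⟨b, hb, hbi, hbD, fun b' hb' hi' => uniq td hO hB hg hb' hi' hb hbi,
    fun Z₀ hZn hZp => ⟨?_, ?_⟩, fun τ hτ hh => ?_⟩
  · exact lsum (fun A _ _ => leq A) s_ibl td hO hB hg hb hbi hZn hZp
  · rintro ⟨E, hE, hEp, hEZ⟩
    have h1 : lSum p O Z₀ B = lSum p O (Z₀.subgroupOf H) b :=
      lsum (fun A _ _ => leq A) s_ibl td hO hB hg hb hbi hZn hZp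
    rw [h1]
    exact lsum_zero (B := b) (hZn.subgroupOf H)
      (hZp.comap_of_injective H.subtype H.subtype_injective) hE hEp hEZ
  · obtain ⟨w, hw, ⟨k, hk⟩, hwK, hwN⟩ := hh
    refine Int.ofNat_inj.mp (lC_eq (fun A _ _ => leq A) s_ibl td hO hB hg hb hbi (Z := ⊥) ?_ ?_)
    · refine ⟨?_, ?_, ?_, ?_⟩
      · rintro _ ⟨D₁, h1, rfl⟩ _ ⟨D₂, h2, rfl⟩ hne
        rcases hτ.chain h1 h2 (fun h => hne (by rw [h])) with h | h
        · exact Or.inl (Subgroup.map_mono h)
        · exact Or.inr (Subgroup.map_mono h)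
      · rintro _ ⟨D₁, h1, rfl⟩
        exact (hτ.isp D₁ h1).map _
      · rintro _ ⟨D₁, h1, rfl⟩ _ ⟨x, -, rfl⟩
        exact x.2
      · rintro _ ⟨D₁, h1, rfl⟩
        rw [bot_lt_iff_ne_bot]
        intro h
        have h2 := hτ.lt D₁ h1
        rw [bot_lt_iff_ne_bot] at h2
        apply h2
        exact (Subgroup.map_eq_bot_iff_of_injective D₁ H.subtype_injective).mp h
    · rw [Ns_map]
      exact ⟨w, ⟨w, hw, rfl⟩, hwK, hwN, k, by rw [Subgroup.orderOf_coe, hk]⟩

end Pool.Agent.Results.MP_6a3f1a_al.BrauerCharacterSums
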