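import Pool.Agent.Q18.K.Main

/-!
# Galois automorphisms and the alternating sum of Knörr and Robinson, block by block
-/

open scoped Classical

open Pool.Agent.Y63.KR (conjSub conjSub_one conjSub_mul)

noncomputable section

namespace Pool.Agent.Results.MP_6a3f1a_al.GaloisChains

/-- `χ` is an irreducible complex character of `H`. -/
def IsIrr {H : Type} [Group H] (χ : H → ℂ) : Prop :=
  ∃ (V : Type) (_ : AddCommGroup V) (_ : Module ℂ V) (_ : FiniteDimensional ℂ V)
    (ρ : Representation ℂ H V), ρ.IsIrreducible ∧ χ = ρ.character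

section

variable {F : Type} [Field F]

/-- `f` is a class function: an element of the centre of the group algebra `F[G]`. -/
def IsClassFun {G : Type} [Group G] (f : G → F) : Prop := ∀ g x : G, f (g * x * g⁻¹) = f x

/-- The product of the group algebra `F[G]`. -/
def conv {G : Type} [Group G] (f g : G → F) : G → F := fun x => ∑ᶠ y : G, f y * g (y⁻¹ * x)

/-- `B` is (the central character of) a `p`-block of `G`: an `F`-algebra homomorphism from the centre
of `F[G]` to `F`, for `F` algebraically closed of characteristic `p`. -/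
structure IsBlock {G : Type} [Group G] (B : (G → F) → F) : Prop where
  add : ∀ f g : G → F, IsClassFun f → IsClassFun g → B (f + g) = B f + B g
  smul : ∀ (a : F) (f : G → F), IsClassFun f → B (a • f) = a * B f
  one : B (Pi.single 1 1) = 1
  mul : ∀ f g : G → F, IsClassFun f → IsClassFun g → B (conv f g) = B f * B g

/-- The reduction of an algebraic integer, extended by zero to all complex numbers. -/
def redC (red : integralClosure ℤ ℂ →+* F) (a : ℂ) : F :=
  if h : IsIntegral ℤ a then red ⟨a, h⟩ else 0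

/-- The value of the reduction `λ_χ` of the central character of `χ` at the class function `f`:
`∑_C f(C) · red (|C| χ(C) / χ(1))`, the sum over the conjugacy classes `C` of `H`. -/
def centralValue (red : integralClosure ℤ ℂ →+* F) {H : Type} [Group H] (χ : H → ℂ)
    (f : H → F) : F :=
  ∑ᶠ C : ConjClasses H, f C.out * redC red ((Nat.card C.carrier : ℂ) * χ C.out / χ 1)

end

section

variable {G : Type} [Group G]

/-- A chain `D_0 = Z < D_1 < ⋯ < D_n` of `p`-subgroups, recorded by the set `{D_1, …, D_n}`. -/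
structure IsChainOver (p : ℕ) (Z : Subgroup G) (d : Set (Subgroup G)) : Prop where
  chain : IsChain (· ≤ ·) d
  isPGroup : ∀ P ∈ d, IsPGroup p P
  lt : ∀ P ∈ d, Z < P

/-- The stabiliser `G_d = ⋂ N_G(D_i)` (here `Z = D_0` is normal). -/
def stab (d : Set (Subgroup G)) : Subgroup G := ⨅ P ∈ d, Subgroup.normalizer (P : Set G)

/-- Conjugacy of chains. -/
def conjSetoid (p : ℕ) (Z : Subgroup G) : Setoid {d : Set (Subgroup G) // IsChainOver p Z d} where
  r d e := ∃ g : G, e.1 = (fun P => P.map (MulAut.conj g).toMonoidHom) '' d.1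
  iseqv :=
    { refl := fun d => ⟨1, by
        have : (fun P : Subgroup G => P.map (MulAut.conj (1 : G)).toMonoidHom) = id :=
          funext conjSub_one
        rw [this, Set.image_id]⟩
      symm := by
        rintro d e ⟨g, hg⟩
        refine ⟨g⁻¹, ?_⟩
        rw [hg, ← Set.image_comp]
        have : (fun P : Subgroup G => P.map (MulAut.conj g⁻¹).toMonoidHom) ∘
            (fun P : Subgroup G => P.map (MulAut.conj g).toMonoidHom) = id := by
          funext P
          change conjSub g⁻¹ (conjSub g P) = P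
          rw [← conjSub_mul, inv_mul_cancel, conjSub_one]
        rw [this, Set.image_id]
      trans := by
        rintro d e f ⟨g, hg⟩ ⟨h, hh⟩
        refine ⟨h * g, ?_⟩
        rw [hh, hg, ← Set.image_comp]
        congr 1
        exact (funext fun P => conjSub_mul h g P).symm }

/-- The number of the `θ ∈ Irr(B_d)`, that is, `θ ∈ Irr(G_d)` with `bl(θ)^G = B`, which have the
property `Q`. Here `bl(θ)^G = B` says `λ_θ(f|_{G_d}) = B(f)` for all class functions `f` of `G`. -/
def numIrr {F : Type} [Field F] (red : integralClosure ℤ ℂ →+* F) (B : (G → F) → F)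
    (Q : ∀ H : Subgroup G, (H → ℂ) → Prop) (d : Set (Subgroup G)) : ℕ :=
  Nat.card {θ : stab d → ℂ // IsIrr θ ∧ Q (stab d) θ ∧
    ∀ f : G → F, IsClassFun f → centralValue red θ (fun x => f x) = B f}

/-- The alternating sum `∑_d (-1)^|d| |{θ ∈ Irr(B_d) : Q θ}|` over representatives `d` of the
conjugacy classes of the chains `Z = D_0 < D_1 < ⋯ < D_n` of `p`-subgroups of `G`. -/
def altSum {F : Type} [Field F] (p : ℕ) (Z : Subgroup G) (red : integralClosure ℤ ℂ →+* F)
    (B : (G → F) → F) (Q : ∀ H : Subgroup G, (H → ℂ) → Prop) : ℤ :=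
  ∑ᶠ c : Quotient (conjSetoid p Z), (-1) ^ (Quotient.out c).1.ncard *
    (numIrr red B Q (Quotient.out c).1 : ℤ)

end

/-- The values of `θ` lie in `ℚ(ζ_{ke})` for some `k` prime to `p` (for `e = 1`: `θ` is
`p`-rational). -/
def IsRat (p e : ℕ) {H : Type} (θ : H → ℂ) : Prop :=
  ∃ k : ℕ, ¬ p ∣ k ∧ ∀ x, θ x ∈
    IntermediateField.adjoin ℚ {Complex.exp (2 * Real.pi * Complex.I / (k * e : ℕ))}

/-- **Galois form of the alternating sum, block by block.** Let `Z` be a normal `p`-subgroup of the
finite group `G` (for instance `O_p(G)`) and `B` a `p`-block of `G`. The alternating sum of the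
`|Irr(B_d)|` over the chains which begin with `Z` is unchanged if only the characters fixed by `s`
are counted, for every automorphism `s` of `ℂ` which fixes the `|G|`-th roots of unity of order
dividing `k · exp(Z)` for some `k` prime to `p`. If `p` is odd, it is unchanged if only the
characters with values in the fields `ℚ(ζ_{k exp(Z)})`, `k` prime to `p`, are counted. -/
theorem result (p : ℕ) [Fact p.Prime] (F : Type) [Field F] [IsAlgClosed F] [CharP F p]
    (red : integralClosure ℤ ℂ →+* F) (G : Type) [Group G] [Finite G] (Z : Subgroup G)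
    (hZn : Z.Normal) (hZ : IsPGroup p Z) (B : (G → F) → F) (hB : IsBlock B) :
    (∀ s : ℂ ≃+* ℂ, (∀ ζ : ℂ, ζ ^ Nat.card G = 1 →
        (∃ k : ℕ, ¬ p ∣ k ∧ ζ ^ (k * Monoid.exponent Z) = 1) → s ζ = ζ) →
      altSum p Z red B (fun _ _ => True) = altSum p Z red B (fun _ θ => ∀ x, s (θ x) = θ x)) ∧
    (p ≠ 2 → altSum p Z red B (fun _ _ => True) =
      altSum p Z red B (fun _ θ => IsRat p (Monoid.exponent Z) θ)) := by
  have hB' : Pool.Agent.Y63.NV.IsBlock B := ⟨hB.add, hB.smul, hB.one, hB.mul⟩
  have hch : ∀ d : Set (Subgroup G), IsChainOver p Z d ↔ Pool.Agent.Q18.K.CH p ⊤ Z d := fun d =>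
    ⟨fun h => ⟨h.chain, h.isPGroup, fun _ _ => le_top, h.lt⟩, fun h => ⟨h.chain, h.isp, h.lt⟩⟩
  have key : ∀ (Q : ∀ H : Subgroup G, (H → ℂ) → Prop) (Q' : Set ℂ → Prop),
      (∀ (H : Subgroup G) (θ : H → ℂ), Q H θ ↔ Q' (Set.range θ)) →
      altSum p Z red B Q = Pool.Agent.Q18.K.altQ p Z red B Q' := by
    intro Q Q' h
    have e1 : ∀ d : Set (Subgroup G), numIrr red B Q d =
        Pool.Agent.Q18.K.numQ red B Q' (stab d) := by
      intro d
      unfold numIrr Pool.Agent.Q18.K.numQ
      exact Nat.card_congr (Equiv.subtypeEquivRight fun θ => and_congr_right fun _ =>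
        and_congr_left fun _ => h _ θ)
    have e2 := Pool.Agent.Q18.K.cls_eq (IsChainOver p Z) (Pool.Agent.Q18.K.CH p ⊤ Z) hch
      (fun _ h => h.chain) (fun g _ h => h.conj hZn g) (conjSetoid p Z) (fun _ _ => Iff.rfl)
      (Pool.Agent.Q18.K.chS p Z) (fun _ _ => Iff.rfl)
      (fun H => (Pool.Agent.Q18.K.numQ red B Q' H : ℤ))
      (fun g H => by rw [Pool.Agent.Q18.K.numQ_conj])
    unfold altSum Pool.Agent.Q18.K.altQ
    refine Eq.trans (finsum_congr fun c => ?_) e2
    rw [e1]
    rfl
  have h1 := key (fun _ _ => True) (fun _ => True) (fun _ _ => Iff.rfl)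
  constructor
  · intro s hs
    rw [h1, key (fun _ θ => ∀ x, s (θ x) = θ x) (fun S => ∀ a ∈ S, s a = a)
      (fun H θ => by simp only [Set.forall_mem_range])]
    exact Pool.Agent.Q18.K.fixed_sum red hZ hZn hs hB'
  · intro hp2
    rw [h1, key (fun _ θ => IsRat p (Monoid.exponent Z) θ) (fun S => ∃ k : ℕ, ¬ p ∣ k ∧
      ∀ a ∈ S, a ∈ IntermediateField.adjoin ℚ {Pool.Agent.Q18.K.zt (k * Monoid.exponent Z)})
      (fun H θ => by
        simp only [Set.forall_mem_range]
        rfl)]
    exact Pool.Agent.Q18.K.rat_sum hp2 red hZ hZn hB'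

end Pool.Agent.Results.MP_6a3f1a_al.GaloisChains
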