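import Pool.Agent.Q17.DC.Pkg

/-!
# The alternating sums of the weight conjecture and the characters not vanishing on a coset

`N` is a normal subgroup of an arbitrary finite group `G` and `y` is a `p`-element of order `p`
modulo `N` which is central modulo `N`. The hypothesis is on the centralisers in `N` of the
`p`-elements of the coset `yN` only. A block `B` of `G` with a defect group which meets `N⟨y⟩` outside
`N` is induced by exactly one block `b` of `H` with such a defect group, and the alternating sums of the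
numbers of those characters of the stabilisers of the chains which do not vanish on the elements with
`p`-part in `N⟨y⟩ ∖ N` agree for `B` and for `b`; for the other blocks there are no such characters.

From `Pool.Agent.Q17.DC.Defs`: `Ch p ⊤ Z₀ σ` says that `σ` is the set of the members
`D₁ < ... < D_n` of a chain `Z₀ < D₁ < ... < D_n` of `p`-subgroups, `Ns ⊤ σ` is the stabiliser of
`σ`, `altX p ⊤ Z₀ w` is the sum of the `(-1) ^ n * w σ` over representatives `σ` of the conjugacy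
classes of these chains, and `Sec p N K x` says that the `p`-part of `x` is in `K` and not in `N`.
-/

open scoped Classical
open Pool.Agent.H254R3.IN Pool.Agent.Q17.DC

namespace Pool.Agent.Results.MP_6a3f1a_al.NonvanishingCharacters

/-- The hypotheses on `(G, N, y, P, H)`: `y ∈ P` has order `p` modulo `N` and is central modulo `N`;
`H` contains the Sylow `p`-subgroup `P` and `C_N(x)` for all `x ∈ P ∩ yN`, and `G = NH`. -/
def Hyp {G : Type} [Group G] (p : ℕ) (N : Subgroup G) (y : G) (P : Sylow p G) (H : Subgroup G) :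
    Prop :=
  (y ∈ P ∧ y ∉ N ∧ y ^ p ∈ N ∧ ∀ g : G, g * y * g⁻¹ * y⁻¹ ∈ N) ∧
    (P : Subgroup G) ≤ H ∧ (∀ g : G, ∃ n ∈ N, ∃ h ∈ H, g = n * h) ∧
    ∀ x ∈ P, y⁻¹ * x ∈ N → ∀ n ∈ N, Commute n x → n ∈ H

/-- The block `B` of `G` is induced by the block of the character `θ` of the subgroup `L`:
`λ_B(K⁺) = λ_θ((K ∩ L)⁺)` for the class `K` of every `x`. -/
def Induces {G : Type} [Group G] (O : ValuationSubring ℂ) (B : Set (G → ℂ)) {L : Subgroup G}
    (θ : L → ℂ) : Prop :=
  ∀ χ ∈ B, ∀ x : G, omega χ x - ∑ᶠ y : {y : L // IsConj x (y : G)}, θ y / θ 1 ∈ O.nonunits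

/-- `θ` is an irreducible character of the subgroup `L` over the character `lam` of the central
subgroup `Z`, its block induces `B`, and its stabiliser in the group of the automorphisms of `ℂ` has
the property `S`. (With `Z = ⊥`, `lam = 1` and `S` always true these are all irreducible characters
of `L` in blocks which induce `B`.) -/
structure Counted {G : Type} [Group G] (O : ValuationSubring ℂ) (Z : Subgroup G)
    (lam : G → ℂ) (S : Set (ℂ ≃+* ℂ) → Prop) (B : Set (G → ℂ)) (L : Subgroup G)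
    (θ : L → ℂ) : Prop where
  irr : IsIrr θ
  ind : Induces O B θ
  lies : ∀ c : L, (c : G) ∈ Z → θ c = θ 1 * lam c
  galois : S {τ : ℂ ≃+* ℂ | ∀ x, τ (θ x) = θ x}

/-- The character `θ` of `L` vanishes on `K ∖ N`: it vanishes at all elements of `L` whose `p`-part is
in `K` and not in `N`. -/
def Vanishes {G : Type} [Group G] (p : ℕ) (N K L : Subgroup G) (θ : L → ℂ) : Prop :=
  ∀ x : L, Sec p N K (x : G) → θ x = 0

/-- The alternating sum `∑ (-1)^|σ| k(B_σ)` over representatives of the conjugacy classes of the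
chains of `p`-subgroups which start with `Z₀`. -/
noncomputable def kSum {G : Type} [Group G] (p : ℕ) (O : ValuationSubring ℂ)
    (Z₀ Z : Subgroup G) (lam : G → ℂ) (S : Set (ℂ ≃+* ℂ) → Prop) (B : Set (G → ℂ)) : ℤ :=
  altX p ⊤ Z₀ fun σ => (Nat.card {θ : Ns ⊤ σ → ℂ // Counted O Z lam S B (Ns ⊤ σ) θ} : ℤ)

/-- The same sum for the characters which do not vanish on `K ∖ N`. -/
noncomputable def kSumNonvanishing {G : Type} [Group G] (p : ℕ) (O : ValuationSubring ℂ)
    (N K Z₀ Z : Subgroup G) (lam : G → ℂ) (S : Set (ℂ ≃+* ℂ) → Prop) (B : Set (G → ℂ)) : ℤ :=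
  altX p ⊤ Z₀ fun σ => (Nat.card {θ : Ns ⊤ σ → ℂ //
    Counted O Z lam S B (Ns ⊤ σ) θ ∧ ¬ Vanishes p N K (Ns ⊤ σ) θ} : ℤ)

/-- The same sum for the characters which vanish on `K ∖ N`. -/
noncomputable def kSumVanishing {G : Type} [Group G] (p : ℕ) (O : ValuationSubring ℂ)
    (N K Z₀ Z : Subgroup G) (lam : G → ℂ) (S : Set (ℂ ≃+* ℂ) → Prop) (B : Set (G → ℂ)) : ℤ :=
  altX p ⊤ Z₀ fun σ => (Nat.card {θ : Ns ⊤ σ → ℂ //
    Counted O Z lam S B (Ns ⊤ σ) θ ∧ Vanishes p N K (Ns ⊤ σ) θ} : ℤ)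

/-- Some defect group of the block `B` contains an element of `K` outside `N`. -/
def Meets {G : Type} [Group G] (p : ℕ) (O : ValuationSubring ℂ) (N K : Subgroup G)
    (B : Set (G → ℂ)) : Prop :=
  ∃ D : Subgroup G, IsDefectGroup p O B D ∧ ∃ z ∈ D, z ∈ K ∧ z ∉ N

/-- The centre of some defect group of the block `B` contains an element of `K` outside `N`. -/
def MeetsCentrally {G : Type} [Group G] (p : ℕ) (O : ValuationSubring ℂ) (N K : Subgroup G)
    (B : Set (G → ℂ)) : Prop :=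
  ∃ D : Subgroup G, IsDefectGroup p O B D ∧ ∃ z ∈ D, (∀ x ∈ D, Commute z x) ∧ z ∈ K ∧ z ∉ N

/-- the data -/
def dt {G : Type} [Group G] (p : ℕ) (O : ValuationSubring ℂ) (N K Z : Subgroup G) (lam : G → ℂ)
    (S : Set (ℂ ≃+* ℂ) → Prop) : Pt G :=
  ⟨p, O, N, K, Z, lam, False, True, fun _ _ => True, S⟩

theorem ct_nonvanishing {G : Type} [Group G] {p : ℕ} {O : ValuationSubring ℂ}
    {N K Z : Subgroup G} {lam : G → ℂ} {S : Set (ℂ ≃+* ℂ) → Prop} {B : Set (G → ℂ)}
    {L : Subgroup G} [Finite L] {θ : L → ℂ} : Ct (dt p O N K Z lam S) B L θ ↔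
      Counted O Z lam S B L θ ∧ ¬ Vanishes p N K L θ := by
  constructor
  · rintro ⟨h1, h2, -, h3, h4, -, h6⟩
    refine ⟨⟨h1, h2, h4, h6⟩, fun h => ?_⟩
    obtain ⟨x, hx, hx'⟩ := h3 trivial
    exact hx' (h x hx)
  · rintro ⟨⟨h1, h2, h4, h6⟩, h3⟩
    refine ⟨h1, h2, fun h => h.elim, fun _ => ?_, h4, ?_, h6⟩
    · unfold Vanishes at h3
      push Not at h3
      exact h3
    · obtain ⟨V, _, _, _, ρ, -, rfl⟩ := h1
      refine ⟨Module.finrank ℂ V, ?_, trivial⟩
      rw [Representation.char_one]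

theorem sum_nonvanishing {G : Type} [Group G] [Finite G] (p : ℕ) (O : ValuationSubring ℂ)
    (N K Z₀ Z : Subgroup G) (lam : G → ℂ) (S : Set (ℂ ≃+* ℂ) → Prop) (B : Set (G → ℂ)) :
    kSumNonvanishing p O N K Z₀ Z lam S B =
      altX p ⊤ Z₀ fun σ => ct (dt p O N K Z lam S) B (Ns ⊤ σ) := by
  unfold kSumNonvanishing ct
  refine altX_congr fun σ _ => ?_
  congr 1
  exact Nat.card_congr (Equiv.subtypeEquivRight fun θ => ct_nonvanishing.symm)

theorem sum_split {G : Type} [Group G] [Fintype G] (p : ℕ) (O : ValuationSubring ℂ)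
    (N K Z₀ Z : Subgroup G) (lam : G → ℂ) (S : Set (ℂ ≃+* ℂ) → Prop) (B : Set (G → ℂ)) :
    kSum p O Z₀ Z lam S B =
      kSumNonvanishing p O N K Z₀ Z lam S B + kSumVanishing p O N K Z₀ Z lam S B := by
  have h1 : ∀ σ : Set (Subgroup G),
      (Nat.card {θ : Ns ⊤ σ → ℂ // Counted O Z lam S B (Ns ⊤ σ) θ} : ℤ) =
        (Nat.card {θ : Ns ⊤ σ → ℂ //
          Counted O Z lam S B (Ns ⊤ σ) θ ∧ ¬ Vanishes p N K (Ns ⊤ σ) θ} : ℤ) +
        (Nat.card {θ : Ns ⊤ σ → ℂ //
          Counted O Z lam S B (Ns ⊤ σ) θ ∧ Vanishes p N K (Ns ⊤ σ) θ} : ℤ) := by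
    intro σ
    have hfin : Finite {θ : Ns ⊤ σ → ℂ // Counted O Z lam S B (Ns ⊤ σ) θ} := by
      have := finite_irr (A := Ns ⊤ σ)
      exact Finite.of_injective (fun θ => (⟨θ.1, θ.2.irr⟩ : {χ : Ns ⊤ σ → ℂ // IsIrr χ}))
        fun a b h => Subtype.ext (by
          have h1 := Subtype.ext_iff.mp h
          exact h1)
    have e1 : Nat.card {θ : Ns ⊤ σ → ℂ //
        Counted O Z lam S B (Ns ⊤ σ) θ ∧ ¬ Vanishes p N K (Ns ⊤ σ) θ} = Nat.card
        {θ : {θ : Ns ⊤ σ → ℂ // Counted O Z lam S B (Ns ⊤ σ) θ} //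
          ¬ Vanishes p N K (Ns ⊤ σ) θ.1} :=
      Nat.card_congr (Equiv.subtypeSubtypeEquivSubtypeInter _ _).symm
    have e2 : Nat.card {θ : Ns ⊤ σ → ℂ //
        Counted O Z lam S B (Ns ⊤ σ) θ ∧ Vanishes p N K (Ns ⊤ σ) θ} = Nat.card
        {θ : {θ : Ns ⊤ σ → ℂ // Counted O Z lam S B (Ns ⊤ σ) θ} //
          Vanishes p N K (Ns ⊤ σ) θ.1} :=
      Nat.card_congr (Equiv.subtypeSubtypeEquivSubtypeInter _ _).symm
    rw [e1, e2, ← Nat.cast_add, ← Nat.card_sum]
    congr 1
    refine (Nat.card_congr ?_).symm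
    exact (Equiv.sumComm _ _).trans (Equiv.sumCompl _)
  unfold kSum kSumNonvanishing kSumVanishing
  rw [← altX_add]
  exact altX_congr fun σ _ => h1 σ

theorem sum_good {G : Type} [Group G] [Fintype G] {p : ℕ} [hp : Fact p.Prime]
    {O : ValuationSubring ℂ} {N K : Subgroup G} (hN : N.Normal) (hK : K.Normal)
    (Z₀ Z : Subgroup G) (lam : G → ℂ) (S : Set (ℂ ≃+* ℂ) → Prop) {B : Set (G → ℂ)}
    (hB : IsBlock O B) (hg : good (dt p O N K Z lam S) B) :
    kSum p O Z₀ Z lam S B = kSumNonvanishing p O N K Z₀ Z lam S B := by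
  unfold kSumNonvanishing kSum
  refine altX_congr fun σ _ => ?_
  congr 1
  refine Nat.card_congr (Equiv.subtypeEquivRight fun θ => ⟨fun h => ⟨h, fun hv => ?_⟩,
    fun h => h.1⟩)
  obtain ⟨x, hx, hx'⟩ := @good_god G _ _ (dt p O N K Z lam S) hN hp prt.gdt hK B hB hg _ θ
    h.irr h.ind
  apply hx'
  unfold omega
  rw [hv x hx, mul_zero, zero_div]
  exact O.nonunits.zero_mem

/-- **Theorem.** Let `G` be a finite group, `N` a normal subgroup, `P` a Sylow `p`-subgroup of `G`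
and `y ∈ P ∖ N` with `y ^ p ∈ N` and `[G, y] ≤ N` (so `G / N` is arbitrary, with a central subgroup
of order `p`). Let `H ≥ P` be a subgroup with `G = NH` and `C_N(x) ≤ H` for all `x ∈ P ∩ yN`. Let
`Z₀` be a normal `p`-subgroup of `G` (for instance `O_p(G)`), `B` any `p`-block of `G`, `Z` a central
subgroup. Below `k` counts the characters over a function `lam` on `Z` whose stabiliser in the group of
the automorphisms of `ℂ` has a property `S` (with `Z = ⊥`, `lam = 1` and `S` always true all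
characters are counted), and `k*` those which do not vanish on the elements with `p`-part in
`N⟨y⟩ ∖ N`. Then
(1) if no defect group of `B` meets `N⟨y⟩` outside `N` then all characters of stabilisers in blocks
which induce `B` vanish on these elements;
(2) if a defect group of `B` meets `N⟨y⟩` outside `N` then there is exactly one block `b` of `H` with
`b^G = B` and with a defect group which meets `N⟨y⟩` outside `N`, `B` and `b` have a common defect
group of this kind, and `∑ (-1)^|σ| k*(B_σ) = ∑ (-1)^|τ| k*(b_τ)` (chains `τ` of `H`), for all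
`lam` and `S`;
(3) if `H` has a normal `p`-subgroup which is not contained in `Z₀` then
`∑ (-1)^|σ| k*(B_σ) = 0`, so the alternating sum of the weight conjecture for `B` is the
alternating sum of the numbers of the characters which vanish on these elements;
(4) if the centre of a defect group of `B` meets `N⟨y⟩` outside `N` then `b` is the only block of `H`
with `b^G = B`, `∑ (-1)^|σ| k(B_σ) = ∑ (-1)^|τ| k(b_τ)` for all `lam` and `S`, and this is
zero if `H` has a normal `p`-subgroup which is not contained in `Z₀`. -/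
theorem result (G : Type) [Group G] [Fintype G] (p : ℕ) [hp : Fact p.Prime] (N H : Subgroup G)
    [N.Normal] (P : Sylow p G) (y : G) (hyp : Hyp p N y P H) (O : ValuationSubring ℂ)
    (hO : (p : ℂ) ∈ O.nonunits) (Z₀ Z : Subgroup G) [Z₀.Normal] (hZ₀ : IsPGroup p Z₀)
    (hZ : Z ≤ Subgroup.center G) (B : Set (G → ℂ)) (hB : IsBlock O B) :
    (¬ Meets p O N (N ⊔ Subgroup.zpowers y) B → ∀ (L : Subgroup G) (θ : L → ℂ), IsIrr θ →
      Induces O B θ → Vanishes p N (N ⊔ Subgroup.zpowers y) L θ) ∧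
    ((∃ E : Subgroup H, E.Normal ∧ IsPGroup p E ∧ ¬ E ≤ Z₀.subgroupOf H) →
      ∀ (lam : G → ℂ) (S : Set (ℂ ≃+* ℂ) → Prop),
        kSumNonvanishing p O N (N ⊔ Subgroup.zpowers y) Z₀ Z lam S B = 0 ∧
        kSum p O Z₀ Z lam S B =
          kSumVanishing p O N (N ⊔ Subgroup.zpowers y) Z₀ Z lam S B) ∧
    (Meets p O N (N ⊔ Subgroup.zpowers y) B → ∃ b : Set (H → ℂ),
      (IsBlock O b ∧ (∀ θ ∈ b, Induces O B θ) ∧
        (∃ E : Subgroup H, IsDefectGroup p O b E ∧ IsDefectGroup p O B (E.map H.subtype) ∧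
          ∃ z ∈ E, (z : G) ∈ N ⊔ Subgroup.zpowers y ∧ (z : G) ∉ N)) ∧
      (∀ b' : Set (H → ℂ), IsBlock O b' → (∀ θ ∈ b', Induces O B θ) →
        Meets p O (N.subgroupOf H) ((N ⊔ Subgroup.zpowers y).subgroupOf H) b' → b' = b) ∧
      (∀ (lam : G → ℂ) (S : Set (ℂ ≃+* ℂ) → Prop),
        kSumNonvanishing p O N (N ⊔ Subgroup.zpowers y) Z₀ Z lam S B =
          kSumNonvanishing p O (N.subgroupOf H) ((N ⊔ Subgroup.zpowers y).subgroupOf H)
            (Z₀.subgroupOf H) (Z.subgroupOf H) (fun x => lam x) S b) ∧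
      (MeetsCentrally p O N (N ⊔ Subgroup.zpowers y) B →
        (∀ b' : Set (H → ℂ), IsBlock O b' → (∀ θ ∈ b', Induces O B θ) → b' = b) ∧
        ∀ (lam : G → ℂ) (S : Set (ℂ ≃+* ℂ) → Prop),
          kSum p O Z₀ Z lam S B =
            kSum p O (Z₀.subgroupOf H) (Z.subgroupOf H) (fun x => lam x) S b ∧
          ((∃ E : Subgroup H, E.Normal ∧ IsPGroup p E ∧ ¬ E ≤ Z₀.subgroupOf H) →
            kSum p O Z₀ Z lam S B = 0))) := by
  obtain ⟨K, hKdef⟩ : ∃ K, K = N ⊔ Subgroup.zpowers y := ⟨_, rfl⟩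
  have td : Pool.Agent.Q17.TC.TD p N y H P := ⟨inferInstance, hyp.1.2.1, hyp.1.2.2.1,
    hyp.1.2.2.2, hyp.1.1, hyp.2.1, hyp.2.2.1, hyp.2.2.2⟩
  rw [← hKdef]
  have hK : K.Normal := by
    rw [hKdef]
    exact td.nK
  have hN : N.Normal := inferInstance
  have hpl : ∀ (lam : G → ℂ) (S : Set (ℂ ≃+* ℂ) → Prop),
      @Pl G _ (dt p O N K Z lam S) _ hN y H P Z₀ := by
    intro lam S
    have hN' : (dt p O N K Z lam S).N.Normal := hN
    exact
    { d := td
      hK := hKdef
      hO := hO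
      hZn := inferInstance
      hZp := hZ₀
      hZ := fun c hc g => (Subgroup.mem_center_iff.mp (hZ hc) g).symm }
  have hpc : ∀ (lam : G → ℂ) (S : Set (ℂ ≃+* ℂ) → Prop), Pc (dt p O N K Z lam S) := fun lam S =>
    { hab := Or.inr trivial
      hT := Or.inr fun _ _ => trivial
      hT' := fun _ _ _ _ _ _ _ _ _ _ => Iff.rfl }
  have hzero : (∃ E : Subgroup H, E.Normal ∧ IsPGroup p E ∧ ¬ E ≤ Z₀.subgroupOf H) →
      ∀ (lam : G → ℂ) (S : Set (ℂ ≃+* ℂ) → Prop),
        kSumNonvanishing p O N K Z₀ Z lam S B = 0 := by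
    rintro ⟨E, hE, hEp, hEZ⟩ lam S
    rw [sum_nonvanishing]
    exact @Pl.zero G _ _ (dt p O N K Z lam S) hN hp y H P Z₀ (hpl lam S) (hpc lam S) prt B hB
      E hE hEp hEZ
  refine ⟨fun hm L θ hθ hi x hx => ?_, fun hE lam S => ⟨hzero hE lam S, ?_⟩, fun hm => ?_⟩
  · by_contra hne
    exact hm (@mts_of G _ _ (dt p O N K Z (fun _ => 1) fun _ => True) hp prt2 hO hN hK B hB L θ
      hθ hi x hx hne)
  · rw [sum_split p O N K Z₀ Z lam S B, hzero hE lam S, zero_add]
  · obtain ⟨b, hb, hbi, hE, hu⟩ := @Pl.pack G _ _ (dt p O N K Z (fun _ => 1) fun _ => True) hN hp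
      y H P Z₀ (hpl (fun _ => 1) fun _ => True) B hB hm
    have hbi' : ∀ θ ∈ b, Induces O B θ := fun θ hθ χ hχ x => hbi χ hχ θ hθ x
    have hmb : Meets p O (N.subgroupOf H) (K.subgroupOf H) b := by
      obtain ⟨E, hE1, -, z, hz, hzK, hzN⟩ := hE
      exact ⟨E, hE1, z, hz, hzK, hzN⟩
    have hnv : ∀ (lam : G → ℂ) (S : Set (ℂ ≃+* ℂ) → Prop),
        kSumNonvanishing p O N K Z₀ Z lam S B =
          kSumNonvanishing p O (N.subgroupOf H) (K.subgroupOf H) (Z₀.subgroupOf H)
            (Z.subgroupOf H) (fun x => lam x) S b := by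
      intro lam S
      rw [sum_nonvanishing]
      refine (@Pl.main2 G _ _ (dt p O N K Z lam S) hp hN y H P Z₀ (hpl lam S) (hpc lam S) prt2 B
        hB b hb hbi hmb).trans ?_
      exact (sum_nonvanishing p O (N.subgroupOf H) (K.subgroupOf H) (Z₀.subgroupOf H)
        (Z.subgroupOf H) (fun x => lam x) S b).symm
    refine ⟨b, ⟨hb, hbi', hE⟩, fun b' hb' hi' hm' => ?_, hnv, ?_⟩
    · obtain ⟨E, hE1, z, hz, hzK, hzN⟩ := hm'
      exact hu b' hb' (fun χ hχ θ hθ x => hi' θ hθ χ hχ x) ⟨E, hE1, z, hz, hzK, hzN⟩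
    · rintro ⟨D, hD, z, hz, hzc, hzK, hzN⟩
      have hgood : ∀ (lam : G → ℂ) (S : Set (ℂ ≃+* ℂ) → Prop), good (dt p O N K Z lam S) B :=
        fun lam S =>
        @good_of_defect G _ _ (dt p O N K Z lam S) hp prt.mmz hO B hB D hD z hz hzc hzK hzN
      refine ⟨fun b' hb' hi' => ?_, fun lam S => ⟨?_, fun hE' => ?_⟩⟩
      · exact @Pl.unique_good G _ _ (dt p O N K Z (fun _ => 1) fun _ => True) hp hN y H P Z₀
          (hpl _ _) prt2 B hB (hgood _ _) b' b hb' (fun χ hχ θ hθ x => hi' θ hθ χ hχ x) hb hbi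
      · rw [sum_good hN hK Z₀ Z lam S hB (hgood lam S), hnv lam S]
        refine (sum_good (hN.subgroupOf H) (hK.subgroupOf H) _ _ _ S hb ?_).symm
        exact @good_res G _ _ (dt p O N K Z lam S) hN hp prt.gdt hK B hB (hgood lam S) H b hb hbi
      · rw [sum_good hN hK Z₀ Z lam S hB (hgood lam S)]
        exact hzero hE' lam S

end Pool.Agent.Results.MP_6a3f1a_al.NonvanishingCharacters
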